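import Pool.Agent.J6H52.Sn.Poly

/-!
# The discriminant of the field generated by a root of `1 + 2 x + ... + (n + 1) x ^ n`
-/

set_option autoImplicit false

open Polynomial Module

namespace Pool.Agent.J6H52.Sn

variable {K : Type} [Field K]

theorem norm_one_sub {L : Type} [Field L] [Algebra K L] (pb : PowerBasis K L) :
    Algebra.norm K (1 - pb.gen) = (minpoly K pb.gen).eval 1 := by
  have h : Algebra.leftMulMatrix pb.basis (1 - pb.gen) =
      Matrix.scalar _ (1 : K) - Algebra.leftMulMatrix pb.basis pb.gen := by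
    rw [map_sub, map_one, map_one]
  rw [Algebra.norm_eq_matrix_det pb.basis, h, ← charpoly_leftMulMatrix, Matrix.eval_charpoly]

/-- the discriminant -/
theorem discr_eq [Fintype K] (h2 : (2 : K) ≠ 0) {n : ℕ} (h0 : 0 < n)
    (ha : (n : K) + 1 ≠ 0) (hb : (n : K) + 2 ≠ 0) (hirr : Irreducible (s K n)) :
    ∃ (L : Type) (_ : Field L) (_ : Algebra K L) (_ : Finite L) (b : Basis (Fin n) K L),
      finrank K L = n ∧
      Algebra.discr K b = (-1) ^ (n * (n - 1) / 2) * (2 * ((n : K) + 2) ^ (n - 1) *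
        (((n : K) + 1)⁻¹) ^ n) := by
  classical
  have : Fact (Irreducible (s K n)) := ⟨hirr⟩
  have hf0 : s K n ≠ 0 := hirr.ne_zero
  let L := AdjoinRoot (s K n)
  let pb : PowerBasis K L := AdjoinRoot.powerBasis hf0
  have : Module.Finite K L := pb.finite
  have hfin : Finite L := Module.finite_of_finite K
  have hdim : pb.dim = n := by
    rw [AdjoinRoot.powerBasis_dim, natDegree_s n ha]
  have hrank : finrank K L = n := by rw [pb.finrank, hdim]
  have hgen : pb.gen = AdjoinRoot.root (s K n) := AdjoinRoot.powerBasis_gen hf0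
  have hlc : (s K n).leadingCoeff = (n : K) + 1 := by
    rw [leadingCoeff, natDegree_s n ha, coeff_s n n le_rfl]
  have hmin : minpoly K pb.gen = s K n * C (((n : K) + 1)⁻¹) := by
    rw [hgen, AdjoinRoot.minpoly_root hf0, hlc]
  have hroot : aeval pb.gen (s K n) = 0 := by
    rw [hgen, AdjoinRoot.aeval_eq, AdjoinRoot.mk_self]
  -- norms
  have hN1 : Algebra.norm K (1 - pb.gen) = ((n : K) + 2) / 2 := by
    rw [norm_one_sub, hmin, eval_mul, eval_C]
    have := eval_one (F := K) n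
    field_simp
    linear_combination this
  have hN0 : Algebra.norm K pb.gen = (-1) ^ n * ((n : K) + 1)⁻¹ := by
    rw [Algebra.PowerBasis.norm_gen_eq_coeff_zero_minpoly, hmin, coeff_mul_C,
      coeff_s n 0 (Nat.zero_le _), hdim]
    simp
  have hder : (1 - pb.gen) * aeval pb.gen (derivative (s K n)) =
      algebraMap K L (-(((n : K) + 1) * ((n : K) + 2))) * pb.gen ^ n := by
    have h := congrArg (aeval pb.gen) (deriv_eq (F := K) n)
    rw [map_add, map_mul, map_mul, hroot, map_sub, aeval_X, map_one, map_mul, aeval_C, map_pow,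
      aeval_X] at h
    rw [map_neg]
    linear_combination -h
  have hNder : Algebra.norm K (aeval pb.gen (derivative (s K n))) = 2 * ((n : K) + 2) ^ (n - 1) := by
    have h := congrArg (Algebra.norm K) hder
    rw [map_mul, map_mul, Algebra.norm_algebraMap, hrank, hN1, map_pow, hN0] at h
    have h3 : (-(((n : K) + 1) * ((n : K) + 2))) ^ n * ((-1) ^ n * ((n : K) + 1)⁻¹) ^ n =
        ((n : K) + 2) ^ n := by
      rw [← mul_pow]
      have : (-(((n : K) + 1) * ((n : K) + 2)) * ((-1) ^ n * ((n : K) + 1)⁻¹)) =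
          (-1) ^ (n + 1) * ((n : K) + 2) := by
        field_simp
        ring
      rw [this, mul_pow, ← pow_mul]
      have hev : Even ((n + 1) * n) := by
        rw [mul_comm]
        exact Nat.even_mul_succ_self n
      rw [hev.neg_one_pow, one_mul]
    rw [h3] at h
    obtain ⟨m, rfl⟩ : ∃ m, n = m + 1 := ⟨n - 1, by omega⟩
    rw [Nat.add_sub_cancel]
    rw [pow_succ] at h
    have h4 : (((m + 1 : ℕ) : K) + 2) / 2 ≠ 0 := div_ne_zero hb h2
    apply mul_left_cancel₀ h4
    rw [h]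
    field_simp
  refine ⟨L, inferInstance, inferInstance, hfin, pb.basis.reindex (finCongr hdim), hrank, ?_⟩
  rw [show ⇑(pb.basis.reindex (finCongr hdim)) = ⇑pb.basis ∘ ⇑(finCongr hdim).symm from
    funext fun i => by simp, Algebra.discr_reindex, Algebra.discr_powerBasis_eq_norm, hrank, hmin,
    derivative_mul, derivative_C, mul_zero, add_zero, map_mul, aeval_C, map_mul, hNder,
    Algebra.norm_algebraMap, hrank]

/-- If `n` is even and `1 + 2 x + ... + (n + 1) x ^ n` is irreducible over a finite field of odd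
characteristic not dividing `(n + 1) (n + 2)`, then `(-1) ^ (n / 2) * 2 (n + 2)` is not a square. -/
theorem even_case [Fintype K] (h2 : (2 : K) ≠ 0) {n : ℕ} (h0 : 0 < n) (hn : Even n)
    (ha : (n : K) + 1 ≠ 0) (hb : (n : K) + 2 ≠ 0) (hirr : Irreducible (s K n)) (c : K) :
    c ^ 2 ≠ (-1) ^ (n / 2) * (2 * ((n : K) + 2)) := by
  intro hc
  obtain ⟨L, i1, i2, i3, b, hr, hd⟩ := discr_eq h2 h0 ha hb hirr
  obtain ⟨m, hm⟩ := hn
  have hm1 : 0 < m := by omega
  refine discr_ne_sq hr b ⟨m, hm⟩ h2 (c * ((n : K) + 2) ^ (m - 1) * (((n : K) + 1)⁻¹) ^ m) ?_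
  rw [hd, mul_pow, mul_pow, hc]
  have e1 : n / 2 = m := by omega
  have e2 : n * (n - 1) / 2 = m * (2 * m - 1) := by
    rw [hm, ← two_mul, mul_assoc, Nat.mul_div_cancel_left _ (by norm_num)]
  have e3 : (-1 : K) ^ (m * (2 * m - 1)) = (-1) ^ m := by
    have : Odd (2 * m - 1) := ⟨m - 1, by omega⟩
    rw [mul_comm, pow_mul, this.neg_one_pow]
  have e4 : ((n : K) + 2) ^ (n - 1) = ((n : K) + 2) * (((n : K) + 2) ^ (m - 1)) ^ 2 := by
    rw [← pow_mul, ← pow_succ']
    congr 1
    omega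
  have e5 : (((n : K) + 1)⁻¹) ^ n = ((((n : K) + 1)⁻¹) ^ m) ^ 2 := by
    rw [← pow_mul]
    congr 1
    omega
  rw [e1, e2, e3, e4, e5]
  ring

/-- If `n` is odd and `1 + 2 x + ... + (n + 1) x ^ n` is irreducible over a finite field of odd
characteristic not dividing `(n + 1) (n + 2)`, then `(-1) ^ ((n - 1) / 2) * 2 (n + 1)` is a square. -/
theorem odd_case [Fintype K] (h2 : (2 : K) ≠ 0) {n : ℕ} (hn : Odd n)
    (ha : (n : K) + 1 ≠ 0) (hb : (n : K) + 2 ≠ 0) (hirr : Irreducible (s K n)) :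
    ∃ c : K, (-1) ^ ((n - 1) / 2) * (2 * ((n : K) + 1)) = c ^ 2 := by
  obtain ⟨m, hm⟩ := hn
  obtain ⟨L, i1, i2, i3, b, hr, hd⟩ := discr_eq h2 (by omega) ha hb hirr
  obtain ⟨c, hc⟩ := discr_eq_sq hr b ⟨m, hm⟩
  refine ⟨c * (((n : K) + 2)⁻¹) ^ m * ((n : K) + 1) ^ (m + 1), ?_⟩
  rw [mul_pow, mul_pow, ← hc, hd]
  have e1 : (n - 1) / 2 = m := by omega
  have e2 : n * (n - 1) / 2 = m * n := by
    have : n - 1 = m * 2 := by omega
    rw [this, ← mul_assoc, Nat.mul_div_cancel _ (by norm_num), mul_comm]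
  have e3 : (-1 : K) ^ (m * n) = (-1) ^ m := by
    have : Odd n := ⟨m, hm⟩
    rw [mul_comm, pow_mul, this.neg_one_pow]
  have e4 : ((n : K) + 2) ^ (n - 1) = (((n : K) + 2) ^ m) ^ 2 := by
    rw [← pow_mul]
    congr 1
    omega
  have e5 : (((n : K) + 1) ^ (m + 1)) ^ 2 = ((n : K) + 1) ^ n * ((n : K) + 1) := by
    rw [← pow_mul, ← pow_succ]
    congr 1
    omega
  rw [e1, e2, e3, e4, e5]
  have h5 : (((n : K) + 1)⁻¹) ^ n * ((n : K) + 1) ^ n = 1 := by
    rw [← mul_pow, inv_mul_cancel₀ ha, one_pow]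
  have h6 : (((n : K) + 2) ^ m) ^ 2 * ((((n : K) + 2)⁻¹) ^ m) ^ 2 = 1 := by
    rw [← mul_pow, ← mul_pow, mul_inv_cancel₀ hb, one_pow, one_pow]
  linear_combination (-((-1) ^ m * 2 * ((n : K) + 1))) * h5 * 1 +
    (-((-1) ^ m * 2 * ((n : K) + 1))) * ((((n : K) + 1)⁻¹) ^ n * ((n : K) + 1) ^ n) * (h6 )

/-- The small primes: if the polynomial is irreducible modulo `p` and `n ≥ 3` then `p` does not
divide `2 (n + 1) (n + 2)`. -/
theorem small {p : ℕ} [hp : Fact p.Prime] {n : ℕ} (hn : 3 ≤ n)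
    (hirr : Irreducible (s (ZMod p) n)) :
    (2 : ZMod p) ≠ 0 ∧ (n : ZMod p) + 1 ≠ 0 ∧ (n : ZMod p) + 2 ≠ 0 := by
  have hdeg : (s (ZMod p) n).natDegree ≠ 1 := by
    intro h1
    have c1 := coeff_eq_zero_of_natDegree_lt (p := s (ZMod p) n) (n := n) (by omega)
    have c2 := coeff_eq_zero_of_natDegree_lt (p := s (ZMod p) n) (n := n - 1) (by omega)
    rw [coeff_s n n le_rfl] at c1
    rw [coeff_s n (n - 1) (by omega), Nat.cast_sub (by omega)] at c2
    have : (1 : ZMod p) = 0 := by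
      linear_combination c1 - c2 + (Nat.cast_one (R := ZMod p))
    exact one_ne_zero this
  have h2 : (2 : ZMod p) ≠ 0 := by
    intro h2
    -- the derivative vanishes
    have hd : derivative (s (ZMod p) n) = 0 := by
      rw [s, derivative_sum]
      refine Finset.sum_eq_zero fun i _ => ?_
      rw [derivative_C_mul_X_pow]
      have : ((i : ZMod p) + 1) * (i : ZMod p) = 0 := by
        have h3 : Even (i * (i + 1)) := Nat.even_mul_succ_self i
        obtain ⟨m, hm⟩ := h3
        have h4 : ((i : ZMod p) + 1) * (i : ZMod p) = ((i * (i + 1) : ℕ) : ZMod p) := by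
          push_cast
          ring
        rw [h4, hm]
        push_cast
        rw [← two_mul, h2, zero_mul]
      rw [this, C_0, zero_mul]
    have hsep := PerfectField.separable_of_irreducible hirr
    rw [separable_def, hd, isCoprime_zero_right] at hsep
    exact hirr.not_isUnit hsep
  have hroot : (s (ZMod p) n).eval 1 ≠ 0 := by
    intro h
    have h3 := degree_eq_one_of_irreducible_of_root hirr h
    exact hdeg (natDegree_eq_of_degree_eq_some h3)
  have h3 := eval_one (F := ZMod p) n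
  have h4 : ((n : ZMod p) + 1) * ((n : ZMod p) + 2) ≠ 0 := by
    rw [← h3]
    exact mul_ne_zero h2 hroot
  exact ⟨h2, left_ne_zero_of_mul h4, right_ne_zero_of_mul h4⟩

end Pool.Agent.J6H52.Sn
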