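import Pool.Agent.J6H52.Sn.Stick

/-!
# The polynomials `1 + 2 x + ... + (n + 1) x ^ n` over a field
-/

set_option autoImplicit false

open Polynomial Module

namespace Pool.Agent.J6H52.Sn

/-- `1 + 2 x + ... + (n + 1) x ^ n` -/
noncomputable def s (F : Type) [CommRing F] (n : ℕ) : F[X] :=
  ∑ i ∈ Finset.range (n + 1), C ((i : F) + 1) * X ^ i

variable {F : Type} [CommRing F]

theorem s_succ (n : ℕ) : s F (n + 1) = s F n + C ((n : F) + 2) * X ^ (n + 1) := by
  rw [s, Finset.sum_range_succ, ← s]
  congr 3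
  push_cast
  ring

theorem s_zero : s F 0 = 1 := by simp [s]

theorem map_s {G : Type} [CommRing G] (f : F →+* G) (n : ℕ) : (s F n).map f = s G n := by
  simp [s, Polynomial.map_sum]

theorem eval_one (n : ℕ) : 2 * (s F n).eval 1 = ((n : F) + 1) * ((n : F) + 2) := by
  induction n with
  | zero => simp [s_zero]
  | succ n ih =>
    rw [s_succ, eval_add, mul_add, ih]
    simp only [eval_mul, eval_C, eval_pow, eval_X, one_pow, mul_one]
    push_cast
    ring

theorem deriv_eq (n : ℕ) : 2 * s F n + (X - 1) * derivative (s F n) =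
    C (((n : F) + 1) * ((n : F) + 2)) * X ^ n := by
  induction n with
  | zero => simp [s_zero, ← map_ofNat (C : F →+* F[X])]
  | succ n ih =>
    rw [s_succ, derivative_add, derivative_C_mul_X_pow]
    have h : 2 * (s F n + C ((n : F) + 2) * X ^ (n + 1)) + (X - 1) * (derivative (s F n) +
        C (((n : F) + 2) * ((n + 1 : ℕ) : F)) * X ^ (n + 1 - 1)) =
        (2 * s F n + (X - 1) * derivative (s F n)) + (2 * C ((n : F) + 2) * X ^ (n + 1) +
        (X - 1) * (C (((n : F) + 2) * ((n + 1 : ℕ) : F)) * X ^ n)) := by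
      rw [Nat.add_sub_cancel]
      ring
    rw [h, ih]
    simp only [Nat.cast_add, Nat.cast_one, C_mul, C_add, C_1, map_natCast, map_ofNat]
    ring

theorem coeff_s (n i : ℕ) (h : i ≤ n) : (s F n).coeff i = (i : F) + 1 := by
  rw [s, finsetSum_coeff]
  simp only [coeff_C_mul, coeff_X_pow, mul_ite, mul_one, mul_zero]
  rw [Finset.sum_eq_single i]
  · simp
  · intro j _ hj
    simp [Ne.symm hj]
  · intro hi
    exfalso
    apply hi
    rw [Finset.mem_range]
    omega

theorem natDegree_s_le (n : ℕ) : (s F n).natDegree ≤ n := by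
  unfold s
  apply natDegree_sum_le_of_forall_le
  intro i hi
  rw [Finset.mem_range] at hi
  exact (natDegree_C_mul_X_pow_le _ _).trans (by omega)

theorem natDegree_s (n : ℕ) (h : (n : F) + 1 ≠ 0) : (s F n).natDegree = n :=
  le_antisymm (natDegree_s_le n) (le_natDegree_of_ne_zero (by rwa [coeff_s n n le_rfl]))

end Pool.Agent.J6H52.Sn
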