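import Mathlib

/-!
# Discriminants of extensions of finite fields: Stickelberger's theorem for one prime
-/

set_option autoImplicit false

open Polynomial Module

namespace Pool.Agent.J6H52.Sn

variable {K L : Type} [Field K] [Fintype K] [Field L] [Algebra K L] [Finite L]

/-- the embeddings of `L` into `E`, numbered by the powers of the Frobenius automorphism -/
noncomputable def emb (K L E : Type) [Field K] [Fintype K] [Field L] [Algebra K L] [Field E]
    [Algebra K E] [Algebra L E] [IsScalarTower K L E] (j : ℕ) : L →ₐ[K] E :=
  (IsScalarTower.toAlgHom K L E).comp (FiniteField.frobeniusAlgHom K L ^ j)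

theorem emb_inj (E : Type) [Field E] [Algebra K E] [Algebra L E] [IsScalarTower K L E]
    {i j : ℕ} (hi : i < finrank K L) (hj : j < finrank K L)
    (h : emb K L E i = emb K L E j) : i = j := by
  have h1 : FiniteField.frobeniusAlgHom K L ^ i = FiniteField.frobeniusAlgHom K L ^ j := by
    ext x
    have h2 := DFunLike.congr_fun h x
    simp only [emb, AlgHom.comp_apply, IsScalarTower.toAlgHom_apply] at h2
    exact (algebraMap L E).injective h2
  have h3 := (FiniteField.bijective_frobeniusAlgHom_pow K L).1 (a₁ := ⟨i, hi⟩) (a₂ := ⟨j, hj⟩) h1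
  exact congrArg Fin.val h3

omit [Finite L] in
theorem emb_frob (E : Type) [Field E] [Algebra K E] [Algebra L E] [IsScalarTower K L E]
    (j : ℕ) (x : L) :
    FiniteField.frobeniusAlgHom K E (emb K L E j x) = emb K L E (j + 1) x := by
  simp only [emb, AlgHom.comp_apply, IsScalarTower.toAlgHom_apply, pow_succ', AlgHom.mul_apply]
  rw [FiniteField.coe_frobeniusAlgHom, FiniteField.coe_frobeniusAlgHom]
  simp only [map_pow]

theorem emb_period (E : Type) [Field E] [Algebra K E] [Algebra L E] [IsScalarTower K L E] :
    emb K L E (finrank K L) = emb K L E 0 := by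
  have h : FiniteField.frobeniusAlgHom K L ^ finrank K L = 1 := by
    rw [← FiniteField.orderOf_frobeniusAlgHom, pow_orderOf_eq_one]
  simp only [emb, h, pow_zero]

/-- The square root of the discriminant and the Frobenius automorphism. -/
theorem exists_det {n : ℕ} (hn : finrank K L = n) (b : Basis (Fin n) K L) :
    ∃ (E : Type) (_ : Field E) (_ : Algebra K E) (D : E),
      algebraMap K E (Algebra.discr K b) = D ^ 2 ∧
      D ^ Fintype.card K = (-1) ^ (n - 1) * D := by
  classical
  have : Module.Finite K L := Module.Finite.of_finite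
  have hpos : 0 < finrank K L := finrank_pos
  let E := AlgebraicClosure L
  have hbij : Function.Bijective (fun j : Fin n => emb K L E j) := by
    rw [Fintype.bijective_iff_injective_and_card]
    refine ⟨fun i j h => Fin.ext (emb_inj E (by rw [hn]; exact i.2) (by rw [hn]; exact j.2) h), ?_⟩
    rw [Fintype.card_fin, AlgHom.card, hn]
  let e : Fin n ≃ (L →ₐ[K] E) := Equiv.ofBijective _ hbij
  have he : ∀ j x, e j x = emb K L E j x := fun j x => rfl
  have hD := Algebra.discr_eq_det_embeddingsMatrixReindex_pow_two K E b e
  set M := Algebra.embeddingsMatrixReindex K E b e with hM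
  have hMij : ∀ i j, M i j = emb K L E j (b i) := fun i j => rfl
  have hrot : (FiniteField.frobeniusAlgHom K E : E →+* E).mapMatrix M =
      M.submatrix id (finRotate n) := by
    ext i j
    rw [RingHom.mapMatrix_apply, Matrix.map_apply, Matrix.submatrix_apply, id, hMij, hMij]
    change FiniteField.frobeniusAlgHom K E (emb K L E j (b i)) = _
    rw [emb_frob]
    obtain ⟨m, rfl⟩ : ∃ m, n = m + 1 := ⟨n - 1, by omega⟩
    rw [coe_finRotate]
    split_ifs with hl
    · have hp := emb_period (K := K) (L := L) E
      rw [hn] at hp
      rw [hl, Fin.val_last, hp]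
    · rfl
  have hdet := congrArg Matrix.det hrot
  rw [← RingHom.map_det, Matrix.det_permute', sign_finRotate] at hdet
  refine ⟨E, inferInstance, inferInstance, M.det, hD, ?_⟩
  have h1 : (FiniteField.frobeniusAlgHom K E : E →+* E) M.det = M.det ^ Fintype.card K := rfl
  rw [← h1, hdet]
  simp

omit [Finite L] [Algebra K L] in
theorem mem_range_of_pow [Algebra K L] (x : L) (h : x ^ Fintype.card K = x) :
    ∃ c : K, algebraMap K L c = x := by
  classical
  by_contra hne
  push Not at hne
  have hcard := Fintype.one_lt_card (α := K)
  have h0 : (X ^ Fintype.card K - X : L[X]) ≠ 0 := FiniteField.X_pow_card_sub_X_ne_zero L hcard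
  have h1 := card_le_degree_of_subset_roots (p := (X ^ Fintype.card K - X : L[X]))
    (Z := insert x (Finset.univ.image (algebraMap K L))) (by
      intro y hy
      rw [mem_roots h0]
      simp only [Finset.insert_val, Multiset.mem_ndinsert, Finset.mem_val, Finset.mem_image,
        Finset.mem_univ, true_and] at hy
      simp only [IsRoot, eval_sub, eval_pow, eval_X]
      rcases hy with rfl | ⟨c, rfl⟩
      · rw [h, sub_self]
      · rw [← map_pow, FiniteField.pow_card, sub_self])
  rw [FiniteField.X_pow_card_sub_X_natDegree_eq L hcard, Finset.card_insert_of_notMem (by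
    simp only [Finset.mem_image, Finset.mem_univ, true_and, not_exists]
    exact hne), Finset.card_image_of_injective _ (algebraMap K L).injective,
    Finset.card_univ] at h1
  omega

/-- A discriminant of an extension of even degree of a finite field of odd characteristic is not a
square. -/
theorem discr_ne_sq {n : ℕ} (hn : finrank K L = n) (b : Basis (Fin n) K L) (hev : Even n)
    (h2 : (2 : K) ≠ 0) (c : K) : Algebra.discr K b ≠ c ^ 2 := by
  intro hc
  have : Module.Finite K L := Module.Finite.of_finite
  have hpos : 0 < finrank K L := finrank_pos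
  obtain ⟨E, i1, i2, D, hD, hdet⟩ := exists_det hn b
  have hs : ((-1 : E)) ^ (n - 1) = -1 := by
    have : Odd (n - 1) := by
      obtain ⟨m, hm⟩ := hev
      exact ⟨m - 1, by omega⟩
    rw [this.neg_one_pow]
  rw [hs] at hdet
  have hc2 : D ^ 2 = (algebraMap K E c) ^ 2 := by rw [← hD, hc, map_pow]
  have hfix : FiniteField.frobeniusAlgHom K E D = D := by
    rcases sq_eq_sq_iff_eq_or_eq_neg.1 hc2 with h | h
    · rw [h]
      exact (FiniteField.frobeniusAlgHom K E).commutes c
    · rw [h, map_neg]
      exact congrArg _ ((FiniteField.frobeniusAlgHom K E).commutes c)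
  rw [FiniteField.coe_frobeniusAlgHom] at hfix
  have hfix' : D ^ Fintype.card K = D := hfix
  rw [hfix'] at hdet
  have h2E : (2 : E) ≠ 0 := by
    intro h
    apply h2
    apply (algebraMap K E).injective
    rw [map_ofNat, map_zero, h]
  have h0 : D = 0 := by
    have : (2 : E) * D = 0 := by linear_combination hdet
    exact (mul_eq_zero.1 this).resolve_left h2E
  have hd0 : Algebra.discr K b = 0 := by
    apply (algebraMap K E).injective
    rw [hD, h0, map_zero]
    ring
  exact Algebra.discr_not_zero_of_basis K b hd0

/-- A discriminant of an extension of odd degree of a finite field is a square. -/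
theorem discr_eq_sq {n : ℕ} (hn : finrank K L = n) (b : Basis (Fin n) K L) (hodd : Odd n) :
    ∃ c : K, Algebra.discr K b = c ^ 2 := by
  obtain ⟨E, i1, i2, D, hD, hdet⟩ := exists_det hn b
  have hs : ((-1 : E)) ^ (n - 1) = 1 := by
    have : Even (n - 1) := by
      obtain ⟨m, hm⟩ := hodd
      exact ⟨m, by omega⟩
    rw [this.neg_one_pow]
  rw [hs, one_mul] at hdet
  obtain ⟨c, rfl⟩ := mem_range_of_pow D hdet
  refine ⟨c, (algebraMap K E).injective ?_⟩
  rw [hD, map_pow]

end Pool.Agent.J6H52.Sn
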